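import Pool.Agent.helper66.LIN.All
import Pool.Agent.helper45.LIN.B3

/-!
# L-shaped embeddings: linearly many points suffice for trees of maximum degree 3

Every tree with `n` vertices and maximum degree at most 3 has an L-shaped embedding (conclusion
verbatim the one of the problem) with vertices in `P`, for EVERY set `P` of at least `n + 12 b`
points with distinct x-coordinates and distinct y-coordinates, where `b` is the number of vertices
of degree 3, and for every such set of at least `7 n` points.
-/

set_option autoImplicit false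

namespace Pool.Agent.Results.MP_60c1a7_co.LinearPointSets

theorem result :
    ∀ (n : ℕ) (T : SimpleGraph (Fin n)), T.IsTree →
      (∀ v, (T.neighborSet v).ncard ≤ 3) →
      ∀ P : Finset (ℝ × ℝ),
        (n + 12 * {v | (T.neighborSet v).ncard = 3}.ncard ≤ P.card ∨ 7 * n ≤ P.card) →
        (∀ p ∈ P, ∀ q ∈ P, p ≠ q → p.1 ≠ q.1 ∧ p.2 ≠ q.2) →
        ∃ (f : Fin n → ℝ × ℝ) (c : Fin n → Fin n → ℝ × ℝ),
          Function.Injective f ∧ (∀ i, f i ∈ P) ∧
          (∀ u v, T.Adj u v → c u v = c v u ∧
              (c u v = ((f u).1, (f v).2) ∨ c u v = ((f v).1, (f u).2))) ∧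
          (∀ u v w, T.Adj u v → w ≠ u → w ≠ v →
              f w ∉ segment ℝ (f u) (c u v) ∪ segment ℝ (c u v) (f v)) ∧
          (∀ u v u' v', T.Adj u v → T.Adj u' v' →
              ¬ (u = u' ∧ v = v') → ¬ (u = v' ∧ v = u') →
              (segment ℝ (f u) (c u v) ∪ segment ℝ (c u v) (f v)) ∩
                (segment ℝ (f u') (c u' v') ∪ segment ℝ (c u' v') (f v'))
                ⊆ ({f u, f v} ∩ {f u', f v'} : Set (ℝ × ℝ))) :=
  fun n T hT hdeg P hP hgen => LSH.Lin.main n T hT hdeg P
    (hP.elim id fun h => (LSH.Lin.B3_seven n T hT).trans h) hgen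

end Pool.Agent.Results.MP_60c1a7_co.LinearPointSets
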