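import Pool.Agent.helper83.LS.Asm2

/-!
# L-shaped embeddings of trees of maximum degree 3 with sparse branching

Let `T` be a tree of maximum degree at most 3 with `n` vertices.  If `T` is in the class below,
then `T` has an L-shaped embedding on EVERY set of `n` points with distinct coordinates.

The class is given by five hypotheses; each of them suffices.  `w` is a child of `v` (with
respect to `r`) if `w` is adjacent to `v` and farther from `r`; a vertex `v` is on the path from
`r` to `s` iff `dist r s = dist r v + dist v s`.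

(a) every vertex off the path from `r` to `s` has at most two neighbours off the path, that is,
    removing the path from `T` leaves a disjoint union of paths;
(b) no two vertices of degree 3 are adjacent;
(c) the vertices of degree 3 induce a disjoint union of paths, and distinct ones of these paths
    are at distance at least 5;
(d) every vertex off the path from `r` to `s` has at most one child of degree 3;
(e) there is a labelling of the vertices by 0, 1, 2 which respects the local rules.
-/

set_option autoImplicit false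

namespace Pool.Agent.Results.MP_60c1a7_co.SparseBranching

theorem result :
    ∀ (n : ℕ) (T : SimpleGraph (Fin n)), T.IsTree →
      (∀ v, (T.neighborSet v).ncard ≤ 3) →
      ((∃ r s : Fin n, ∀ v, ¬ T.dist r s = T.dist r v + T.dist v s →
          {w | T.Adj v w ∧ ¬ T.dist r s = T.dist r w + T.dist w s}.ncard ≤ 2) ∨
        (∀ u v, T.Adj u v → (T.neighborSet u).ncard = 3 → (T.neighborSet v).ncard ≠ 3) ∨
        ((∀ v, (T.neighborSet v).ncard = 3 →
            {w | T.Adj v w ∧ (T.neighborSet w).ncard = 3}.ncard ≤ 2) ∧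
          (∀ u v, (T.neighborSet u).ncard = 3 → (T.neighborSet v).ncard = 3 → T.dist u v ≤ 4 →
            ∀ w, T.dist u v = T.dist u w + T.dist w v → (T.neighborSet w).ncard = 3)) ∨
        (∃ r s : Fin n, ∀ v, ¬ T.dist r s = T.dist r v + T.dist v s →
          {w | T.Adj v w ∧ T.dist r w = T.dist r v + 1 ∧
            (T.neighborSet w).ncard = 3}.ncard ≤ 1) ∨
        (∃ (r : Fin n) (ρ : Fin n → ℕ), ∀ v, ρ v ≤ 2 ∧
          ({w | T.Adj v w ∧ T.dist r w = T.dist r v + 1} = ∅ ∨
          (∃ w, {w | T.Adj v w ∧ T.dist r w = T.dist r v + 1} = {w} ∧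
            (ρ w ≤ 1 ∨ ρ v = 2 ∨
              (1 ≤ ρ v ∧ ∃ w₂ w₃,
                {x | T.Adj w x ∧ T.dist r x = T.dist r w + 1} = {w₂} ∧
                {x | T.Adj w₂ x ∧ T.dist r x = T.dist r w₂ + 1} = {w₃}))) ∨
          (∃ w w', w ≠ w' ∧ {w | T.Adj v w ∧ T.dist r w = T.dist r v + 1} = {w, w'} ∧
            ((1 ≤ ρ v ∧ ρ w = 0 ∧ ρ w' ≤ 1) ∨ (ρ v = 2 ∧ ρ w ≤ 1)))))) →
      ∀ P : Finset (ℝ × ℝ), P.card = n →
        (∀ p ∈ P, ∀ q ∈ P, p ≠ q → p.1 ≠ q.1 ∧ p.2 ≠ q.2) →
        ∃ (f : Fin n → ℝ × ℝ) (c : Fin n → Fin n → ℝ × ℝ),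
          Function.Injective f ∧ (∀ i, f i ∈ P) ∧
          (∀ u v, T.Adj u v → c u v = c v u ∧
              (c u v = ((f u).1, (f v).2) ∨ c u v = ((f v).1, (f u).2))) ∧
          (∀ u v w, T.Adj u v → w ≠ u → w ≠ v →
              f w ∉ segment ℝ (f u) (c u v) ∪ segment ℝ (c u v) (f v)) ∧
          (∀ u v u' v', T.Adj u v → T.Adj u' v' →
              ¬ (u = u' ∧ v = v') → ¬ (u = v' ∧ v = u') →
              (segment ℝ (f u) (c u v) ∪ segment ℝ (c u v) (f v)) ∩
                (segment ℝ (f u') (c u' v') ∪ segment ℝ (c u' v') (f v'))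
                ⊆ ({f u, f v} ∩ {f u', f v'} : Set (ℝ × ℝ))) :=
  LSH.FINAL2

end Pool.Agent.Results.MP_60c1a7_co.SparseBranching
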